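import Pool.Agent.H17.DR.Fin

/-!
# Two quadratic conjugates generate a finite-dimensional algebra (helper17)
-/

set_option autoImplicit false
set_option linter.unusedVariables false

namespace Pool.Agent.H17.DR

universe u v

open Finset Polynomial Pool.Agent.NH80.DR

section

variable {F : Type v} {D : Type u} {A : Type u} [Field F] [DivisionRing D] [Algebra F D]
  [Ring A] [Algebra F A]

theorem step1 {C X W S0 S1 t d : A} (hX : t * X = X * t) (hS0 : t * S0 = S0 * t)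
    (hS1 : t * S1 = S1 * t) (hd : ∀ a : A, a * d = d * a) (ht : t * t = t + d)
    (E1 : C * X = X * (S0 + (W + 1) * S1))
    (E2 : C * (X * (W + 1)) = X * (d * S1 + (W + 1) * (S0 + S1))) :
    C * (X * (W + t)) = (X * (W + t)) * (S0 + S1 * t) := by
  have k1 : C * (X * W) = X * (d * S1 + W * S0) := by
    have h1 : C * (X * W) = C * (X * (W + 1)) - C * X := by noncomm_ring
    rw [h1, E1, E2]
    noncomm_ring
  have h2 : C * (X * (W + t)) = C * (X * W) + (C * X) * t := by noncomm_ring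
  have h3 : (X * (W + t)) * (S0 + S1 * t) =
      X * (W * S0) + X * (W * S1 * t) + X * (t * S0) + X * ((t * S1) * t) := by noncomm_ring
  rw [h2, h3, k1, E1, hS0, hS1, mul_assoc S1 t t, ht, mul_add S1 t d, hd S1]
  noncomm_ring

theorem core [Nontrivial A] (ι : D →ₐ[F] A) (θ : A) (hθ : ∀ x : D, θ * ι x = ι x * θ) (δ : F)
    (hθ2 : θ * θ = θ + algebraMap F A δ) (hδ : 1 + 4 * δ ≠ 0)
    (c w x₀ s₀ s₁ : D) (hc : IsIntegral F c) (hw : IsIntegral F w) (hx₀ : x₀ ≠ 0)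
    (hs₀ : s₀ ∈ Algebra.adjoin F {c}) (hs₁ : s₁ ∈ Algebra.adjoin F {c})
    (hN : w * w + w - algebraMap F D δ ≠ 0)
    (E1 : c * x₀ = x₀ * (s₀ + (w + 1) * s₁))
    (E2 : c * (x₀ * (w + 1)) = x₀ * (algebraMap F D δ * s₁ + (w + 1) * (s₀ + s₁)))
    (hcw : c * w ≠ w * c) : PF D := by
  set d : A := algebraMap F A δ with hd
  have hdc : ∀ a : A, a * d = d * a := fun a => (Algebra.commutes δ a).symm
  set N : D := w * w + w - algebraMap F D δ with hNdef
  set L : Subalgebra F A := W F (ι c) θ with hL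
  have hcA : IsIntegral F (ι c) := hc.map ι
  have hwA : IsIntegral F (ι w) := hw.map ι
  have hθi : IsIntegral F θ := by
    refine ⟨X ^ 2 - X - C δ, ?_, ?_⟩
    · have h1 : (X ^ 2 - X - C δ : F[X]) = X ^ 2 + (-X - C δ) := by ring
      rw [h1]
      refine monic_X_pow_add ?_
      refine (degree_sub_le _ _).trans_lt ?_
      rw [degree_neg, degree_X]
      refine max_lt (by norm_num) (degree_C_le.trans_lt (by norm_num))
    · have h2 : aeval θ (X ^ 2 - X - C δ : F[X]) = 0 := by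
        rw [map_sub, map_sub, map_pow, aeval_X, aeval_C, pow_two, hθ2, ← hd]
        abel
      exact h2
  have hLfg : (Subalgebra.toSubmodule L).FG := W_fg hcA hθi (hθ c)
  have hW'fg : (Subalgebra.toSubmodule (W F (ι w) θ)).FG := W_fg hwA hθi (hθ w)
  have mapad : ∀ {x y : D}, y ∈ Algebra.adjoin F {x} → ι y ∈ Algebra.adjoin F {ι x} := by
    intro x y hy
    have h1 : ι y ∈ (Algebra.adjoin F {x}).map ι := ⟨y, hy, rfl⟩
    rwa [AlgHom.map_adjoin, Set.image_singleton] at h1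
  have hS0 : ι s₀ ∈ L := ad_mem_W (mapad hs₀)
  have hS1 : ι s₁ ∈ L := ad_mem_W (mapad hs₁)
  have hθL : θ ∈ L := t_mem_W _ _
  -- the inverse of `N`
  have hNi : N * N⁻¹ = 1 := mul_inv_cancel₀ hN
  have hNi' : N⁻¹ * N = 1 := inv_mul_cancel₀ hN
  have hNw : N * w = w * N := by
    rw [hNdef]
    have h1 := Algebra.commutes δ w
    rw [sub_mul, mul_sub, h1]
    noncomm_ring
  have hNw' : N⁻¹ * w = w * N⁻¹ := (Commute.inv_left₀ (show Commute N w from hNw)).eq
  have a1 : ι N * ι N⁻¹ = 1 := by rw [← map_mul, hNi, map_one]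
  have a2 : ι N⁻¹ * ι N = 1 := by rw [← map_mul, hNi', map_one]
  have a3 : ι N⁻¹ * ι w = ι w * ι N⁻¹ := by rw [← map_mul, hNw', map_mul]
  have a4 : ι x₀ * ι x₀⁻¹ = 1 := by rw [← map_mul, mul_inv_cancel₀ hx₀, map_one]
  have a5 : ι x₀⁻¹ * ι x₀ = 1 := by rw [← map_mul, inv_mul_cancel₀ hx₀, map_one]
  have hNA : ι N = ι w * ι w + ι w - d := by
    rw [hNdef, map_sub, map_add, map_mul, AlgHom.commutes]
  have e1 : ι c * ι x₀ = ι x₀ * (ι s₀ + (ι w + 1) * ι s₁) := by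
    have := congrArg ι E1
    simpa only [map_mul, map_add, map_one] using this
  have e2 : ι c * (ι x₀ * (ι w + 1)) = ι x₀ * (d * ι s₁ + (ι w + 1) * (ι s₀ + ι s₁)) := by
    have := congrArg ι E2
    simpa only [map_mul, map_add, map_one, AlgHom.commutes] using this
  -- the two conjugations
  have main : ∀ t : A, t ∈ L → (∀ x : D, t * ι x = ι x * t) → t * t = t + d → θ * t = t * θ →
      ((ι x₀ * (ι w + t)) * ((ι w + 1 - t) * ι N⁻¹ * ι x₀⁻¹) = 1 ∧
      ((ι w + 1 - t) * ι N⁻¹ * ι x₀⁻¹) * (ι x₀ * (ι w + t)) = 1) ∧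
      ∀ l ∈ L, ((ι w + 1 - t) * ι N⁻¹ * ι x₀⁻¹) * l * (ι x₀ * (ι w + t)) ∈ L := by
    intro t htL ht ht2 hθt
    have b1 : (ι w + t) * (ι w + 1 - t) = ι N := by
      have h1 : (ι w + t) * (ι w + 1 - t) =
          ι w * ι w + ι w - ι w * t + t * ι w + t - t * t := by noncomm_ring
      rw [h1, ht w, ht2, hNA]
      noncomm_ring
    have b2 : (ι w + 1 - t) * (ι w + t) = ι N := by
      have h1 : (ι w + 1 - t) * (ι w + t) =
          ι w * ι w + ι w + ι w * t - t * ι w + t - t * t := by noncomm_ring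
      rw [h1, ht w, ht2, hNA]
      noncomm_ring
    have b3 : ι N⁻¹ * (ι w + t) = (ι w + t) * ι N⁻¹ := by
      rw [mul_add, add_mul, a3, ht]
    have c1 : (ι x₀ * (ι w + t)) * ((ι w + 1 - t) * ι N⁻¹ * ι x₀⁻¹) = 1 := by
      calc (ι x₀ * (ι w + t)) * ((ι w + 1 - t) * ι N⁻¹ * ι x₀⁻¹) =
          ι x₀ * ((ι w + t) * (ι w + 1 - t)) * ι N⁻¹ * ι x₀⁻¹ := by simp only [mul_assoc]
        _ = ι x₀ * (ι N * ι N⁻¹) * ι x₀⁻¹ := by rw [b1]; simp only [mul_assoc]
        _ = 1 := by rw [a1, mul_one, a4]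
    have c2 : ((ι w + 1 - t) * ι N⁻¹ * ι x₀⁻¹) * (ι x₀ * (ι w + t)) = 1 := by
      calc ((ι w + 1 - t) * ι N⁻¹ * ι x₀⁻¹) * (ι x₀ * (ι w + t)) =
          (ι w + 1 - t) * ι N⁻¹ * (ι x₀⁻¹ * ι x₀) * (ι w + t) := by simp only [mul_assoc]
        _ = (ι w + 1 - t) * (ι N⁻¹ * (ι w + t)) := by rw [a5, mul_one, mul_assoc]
        _ = ((ι w + 1 - t) * (ι w + t)) * ι N⁻¹ := by rw [b3, mul_assoc]
        _ = 1 := by rw [b2, a1]
    refine ⟨⟨c1, c2⟩, ?_⟩
    refine W_conj c2 c1 ?_ ?_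
    · have h1 := step1 (ht x₀) (ht s₀) (ht s₁) hdc ht2 e1 e2
      have h2 : ((ι w + 1 - t) * ι N⁻¹ * ι x₀⁻¹) * ι c * (ι x₀ * (ι w + t)) =
          ι s₀ + ι s₁ * t := by
        rw [mul_assoc, h1, ← mul_assoc, c2, one_mul]
      rw [h2]
      exact L.add_mem hS0 (L.mul_mem hS1 htL)
    · have h1 : θ * (ι x₀ * (ι w + t)) = (ι x₀ * (ι w + t)) * θ := by
        rw [← mul_assoc, hθ x₀, mul_assoc, mul_add, hθ w, hθt, ← add_mul, mul_assoc]
      have h2 : ((ι w + 1 - t) * ι N⁻¹ * ι x₀⁻¹) * θ * (ι x₀ * (ι w + t)) = θ := by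
        rw [mul_assoc, h1, ← mul_assoc, c2, one_mul]
      rw [h2]
      exact hθL
  have h1θ : ∀ x : D, (1 - θ) * ι x = ι x * (1 - θ) := by
    intro x
    rw [sub_mul, mul_sub, hθ, one_mul, mul_one]
  have h1θ2 : (1 - θ) * (1 - θ) = (1 - θ) + d := by
    have h1 : (1 - θ) * (1 - θ) = 1 - θ - θ + θ * θ := by noncomm_ring
    rw [h1, hθ2]
    abel
  obtain ⟨⟨p1, p2⟩, p3⟩ := main θ hθL hθ hθ2 rfl
  obtain ⟨⟨q1, q2⟩, q3⟩ := main (1 - θ) (L.sub_mem L.one_mem hθL) h1θ h1θ2 (by noncomm_ring)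
  have p4 := conj_surj L hLfg _ _ p2 p1 p3
  set X1 : A := ι x₀ * (ι w + θ) with hX1
  set Y1 : A := (ι w + 1 - θ) * ι N⁻¹ * ι x₀⁻¹ with hY1
  set X2 : A := ι x₀ * (ι w + (1 - θ)) with hX2
  set Y2 : A := (ι w + 1 - (1 - θ)) * ι N⁻¹ * ι x₀⁻¹ with hY2
  set g : A := (ι w + θ) * ι N⁻¹ with hg
  set κ : A := θ + θ - 1 with hκ
  have hu : Y2 * X1 = 1 + κ * g := by
    have h1 : Y2 * X1 = (ι w + θ) * ι N⁻¹ * (ι w + θ) := by
      calc Y2 * X1 = (ι w + 1 - (1 - θ)) * ι N⁻¹ * (ι x₀⁻¹ * ι x₀) * (ι w + θ) := by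
            rw [hY2, hX1]
            simp only [mul_assoc]
        _ = (ι w + θ) * ι N⁻¹ * (ι w + θ) := by
            rw [a5, mul_one]
            congr 2
            abel
    have b3 : ι N⁻¹ * (ι w + θ) = (ι w + θ) * ι N⁻¹ := by
      rw [mul_add, add_mul, a3, hθ]
    have b1 : (ι w + 1 - θ) * (ι w + θ) = ι N := by
      have h1 : (ι w + 1 - θ) * (ι w + θ) =
          ι w * ι w + ι w + ι w * θ - θ * ι w + θ - θ * θ := by noncomm_ring
      rw [h1, hθ w, hθ2, hNA]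
      noncomm_ring
    calc Y2 * X1 = (ι w + θ) * ((ι w + θ) * ι N⁻¹) := by rw [h1, mul_assoc, b3]
      _ = ((ι w + 1 - θ) * (ι w + θ)) * ι N⁻¹ + κ * g := by
          rw [hκ, hg]
          noncomm_ring
      _ = 1 + κ * g := by rw [b1, a1]
  have hκ2 : κ * κ = algebraMap F A (1 + 4 * δ) := by
    have h1 : κ * κ = 4 * (θ * θ) - 4 * θ + 1 := by
      rw [hκ]
      noncomm_ring
    rw [h1, hθ2, map_add, map_one, map_mul, map_ofNat, ← hd]
    noncomm_ring
  set κ' : A := algebraMap F A (1 + 4 * δ)⁻¹ * κ with hκ'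
  have hκκ : κ' * κ = 1 := by
    rw [hκ', mul_assoc, hκ2, ← map_mul, inv_mul_cancel₀ hδ, map_one]
  have hκL : κ ∈ L := L.sub_mem (L.add_mem hθL hθL) L.one_mem
  have hκ'L : κ' ∈ L := L.mul_mem (L.algebraMap_mem _) hκL
  have hθl : ∀ l ∈ L, θ * l = l * θ := by
    intro l hl
    refine Algebra.adjoin_induction (p := fun l _ => θ * l = l * θ) ?_ ?_ ?_ ?_ hl
    · rintro y (hy | hy)
      · exact comm_ad (hθ c) hy
      · rw [Set.mem_singleton_iff.1 hy]
    · intro r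
      exact (Algebra.commutes r θ).symm
    · intro y z _ _ hy hz
      rw [mul_add, add_mul, hy, hz]
    · intro y z _ _ hy hz
      rw [← mul_assoc, hy, mul_assoc, hz, mul_assoc]
  have hκl : ∀ l ∈ L, κ * l = l * κ := by
    intro l hl
    rw [hκ, sub_mul, mul_sub, add_mul, mul_add, hθl l hl, one_mul, mul_one]
  have hmove : ∀ l ∈ L, ∃ s ∈ L, ∃ t ∈ L, g * l = s * g + t := by
    intro l hl
    have h1 := p4 l hl
    have h2 := q3 _ h1
    refine ⟨Y2 * (X1 * l * Y1) * X2, h2, κ' * (Y2 * (X1 * l * Y1) * X2 - l),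
      L.mul_mem hκ'L (L.sub_mem h2 hl), ?_⟩
    set m : A := Y2 * (X1 * l * Y1) * X2 with hm
    have h3 : m * (Y2 * X1) = (Y2 * X1) * l := by
      calc m * (Y2 * X1) = Y2 * (X1 * l * Y1) * (X2 * Y2) * X1 := by
            rw [hm]
            simp only [mul_assoc]
        _ = Y2 * X1 * l * (Y1 * X1) := by
            rw [q1, mul_one]
            simp only [mul_assoc]
        _ = (Y2 * X1) * l := by rw [p2, mul_one]
    rw [hu] at h3
    have h4 : κ * (g * l) = κ * (m * g) + (m - l) := by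
      have h5 : κ * (g * l) = (1 + κ * g) * l - l := by noncomm_ring
      have h6 : m * (1 + κ * g) = m + κ * m * g := by
        rw [hκl m h2]
        noncomm_ring
      rw [h5, ← h3, h6]
      noncomm_ring
    calc g * l = κ' * (κ * (g * l)) := by rw [← mul_assoc, hκκ, one_mul]
      _ = κ' * κ * (m * g) + κ' * (m - l) := by rw [h4, mul_add, ← mul_assoc]
      _ = m * g + κ' * (m - l) := by rw [hκκ, one_mul]
  have hθW' : θ ∈ W F (ι w) θ := t_mem_W _ _
  have hwW' : ι w ∈ W F (ι w) θ := x_mem_W _ _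
  have hNW' : ι N ∈ W F (ι w) θ := by
    rw [hNA]
    exact Subalgebra.sub_mem _ (Subalgebra.add_mem _ (Subalgebra.mul_mem _ hwW' hwW') hwW')
      (Subalgebra.algebraMap_mem _ _)
  have hgW' : g ∈ W F (ι w) θ :=
    Subalgebra.mul_mem _ (Subalgebra.add_mem _ hwW' hθW') (inv_mem' _ hW'fg hNW' a1 a2)
  have hgi : IsIntegral F g := IsIntegral.of_mem_of_fg _ hW'fg _ hgW'
  have hBfg := gen_fg L hLfg g hgi hmove
  set B := Algebra.adjoin F ((L : Set A) ∪ {g}) with hB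
  have hLB : ∀ l ∈ L, l ∈ B := fun l hl => Algebra.subset_adjoin (Or.inl hl)
  have hgB : g ∈ B := Algebra.subset_adjoin (Or.inr rfl)
  have r1 : g * (ι w + 1 - θ) = 1 := by
    have b1 : (ι w + θ) * (ι w + 1 - θ) = ι N := by
      have h1 : (ι w + θ) * (ι w + 1 - θ) =
          ι w * ι w + ι w - ι w * θ + θ * ι w + θ - θ * θ := by noncomm_ring
      rw [h1, hθ w, hθ2, hNA]
      noncomm_ring
    have b3 : ι N⁻¹ * (ι w + 1 - θ) = (ι w + 1 - θ) * ι N⁻¹ := by
      rw [mul_sub, mul_add, sub_mul, add_mul, a3, hθ, one_mul, mul_one]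
    rw [hg, mul_assoc, b3, ← mul_assoc, b1, a1]
  have r2 : (ι w + 1 - θ) * g = 1 := by
    have b1 : (ι w + 1 - θ) * (ι w + θ) = ι N := by
      have h1 : (ι w + 1 - θ) * (ι w + θ) =
          ι w * ι w + ι w + ι w * θ - θ * ι w + θ - θ * θ := by noncomm_ring
      rw [h1, hθ w, hθ2, hNA]
      noncomm_ring
    rw [hg, ← mul_assoc, b1, a1]
  have hwB : ι w ∈ B := by
    have h1 := inv_mem' B hBfg hgB r1 r2
    have h2 : ι w = (ι w + 1 - θ) - 1 + θ := by abel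
    rw [h2]
    exact B.add_mem (B.sub_mem h1 B.one_mem) (hLB _ hθL)
  have hcB : ι c ∈ B := hLB _ (x_mem_W _ _)
  have hιinj : Function.Injective ι := ι.toRingHom.injective
  have hG : (Subalgebra.toSubmodule (B.comap ι)).FG := by
    have hBf : Module.Finite F B := Module.Finite.iff_fg.2 hBfg
    let f : (B.comap ι) →ₗ[F] B :=
      { toFun := fun x => ⟨ι x, x.2⟩
        map_add' := fun x y => Subtype.ext (by simp)
        map_smul' := fun r x => Subtype.ext (by simp) }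
    have hf : Function.Injective f := by
      intro x y hxy
      exact Subtype.ext (hιinj (congrArg Subtype.val hxy))
    exact Module.Finite.iff_fg.1 (Module.Finite.of_injective f hf)
  exact pf_of_fin (B.comap ι) hG ⟨c, hcB, w, hwB, hcw⟩

end

end Pool.Agent.H17.DR
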