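import Pool.Agent.H17.DR.Quad

/-!
# Two involutions (helper17)
-/

set_option autoImplicit false
set_option linter.unusedVariables false

namespace Pool.Agent.H17.DR

universe u v w

open Finset Polynomial Pool.Agent.NH80.DR

theorem rowv {F : Type v} {M : Type w} [Field F] [Field M] [Algebra F M]
    (R : Matrix (Fin 2) (Fin 2) M) (v : Fin 2 → M) (r : M) (h : Matrix.vecMul v R = r • v)
    (p : F[X]) : Matrix.vecMul v (aeval R p) = (aeval r p) • v := by
  have hpow : ∀ n : ℕ, Matrix.vecMul v (R ^ n) = (r ^ n) • v := by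
    intro n
    induction n with
    | zero => simp
    | succ n ih =>
      rw [pow_succ, ← Matrix.vecMul_vecMul, ih, Matrix.smul_vecMul, h, smul_smul, pow_succ]
  induction p using Polynomial.induction_on' with
  | add p q hp hq => rw [map_add, Matrix.vecMul_add, hp, hq, map_add, add_smul]
  | monomial n a =>
    rw [aeval_monomial, aeval_monomial, ← Algebra.smul_def, ← Algebra.smul_def,
      Matrix.vecMul_smul, hpow, smul_assoc]

section

variable {D : Type u} [DivisionRing D]

theorem base (hD : AC D) (c : D) {M : Type w} [Field M] [Algebra (Subring.center D) M]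
    [FiniteDimensional (Subring.center D) M] (β : M)
    (hβ : aeval β (minpoly (Subring.center D) c) = 0)
    (τ τ' : M ≃ₐ[Subring.center D] M) (h1 : ∀ x, τ (τ x) = x) (h1' : ∀ x, τ' (τ' x) = x)
    (h2 : ∀ x, τ x = x → x ∈ Algebra.adjoin (Subring.center D) {β}) (h3 : τ β = β)
    (h4 : τ' β ≠ β)
    (h5 : ∀ x, τ x = x → τ' x = x → ∃ e : Subring.center D, algebraMap _ M e = x) : PF D := by
  set F := Subring.center D with hF
  set f := minpoly F c with hf
  have hfirr : Irreducible f := minpoly.irreducible (hD c)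
  have hfm : f.Monic := minpoly.monic (hD c)
  have hfc : aeval c f = 0 := minpoly.aeval F c
  have hfβ : f = minpoly F β := minpoly.eq_of_irreducible_of_monic hfirr hβ hfm
  have key : ∀ P : F[X], aeval β P = 0 → aeval c P = 0 := by
    intro P hP
    have h := minpoly.dvd F β hP
    rw [← hfβ] at h
    obtain ⟨Q, hQ⟩ := h
    rw [hQ, map_mul, hfc, zero_mul]
  have key2 : ∀ P : F[X], aeval c P = 0 → aeval β P = 0 := by
    intro P hP
    obtain ⟨Q, hQ⟩ := minpoly.dvd F c hP
    rw [hQ, map_mul, hβ, zero_mul]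
  have hpol : ∀ x ∈ Algebra.adjoin F {β}, ∃ P : F[X], aeval β P = x := by
    intro x hx
    rw [Algebra.adjoin_singleton_eq_range_aeval] at hx
    exact hx
  by_cases hc1 : τ (τ' β) = τ' β
  · obtain ⟨P, hP⟩ := hpol _ (h2 _ hc1)
    refine Laut hD c (aeval c P) ?_ (aeval_mem_adjoin_singleton F c) ?_
    · have e1 : aeval β (f.comp P) = 0 := by
        rw [aeval_comp, hP]
        have := aeval_algHom_apply (τ' : M →ₐ[F] M) β f
        rw [hβ, map_zero] at this
        exact this
      have e2 := key _ e1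
      rwa [aeval_comp] at e2
    · intro h
      apply h4
      have e1 : aeval c (P - X) = 0 := by rw [map_sub, aeval_X, h, sub_self]
      have e2 := key2 _ e1
      rw [map_sub, aeval_X, hP] at e2
      exact sub_eq_zero.1 e2
  have hex : ∃ x : M, τ (τ' x) = x ∧ τ x ≠ x := by
    by_contra hcon
    push Not at hcon
    apply hc1
    set H := Subgroup.zpowers (τ * τ') with hH
    have m1 : τ ∈ (IntermediateField.fixedField H).fixingSubgroup := by
      rw [IntermediateField.mem_fixingSubgroup_iff]
      intro x hx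
      rw [IntermediateField.mem_fixedField_iff] at hx
      exact hcon x (hx (τ * τ') (Subgroup.mem_zpowers _))
    rw [IntermediateField.fixingSubgroup_fixedField] at m1
    obtain ⟨k, hk⟩ := Subgroup.mem_zpowers_iff.1 m1
    have m2 : τ * (τ * τ') = (τ * τ') * τ := by
      have := (Commute.refl (τ * τ')).zpow_left k
      rw [hk] at this
      exact this
    have m3 : τ (τ (τ' β)) = τ (τ' (τ β)) := congrArg (fun g : M ≃ₐ[F] M => g β) m2
    rw [h1, h3] at m3
    exact m3.symm
  obtain ⟨θ₀, t1, t2⟩ := hex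
  have t3 : τ' θ₀ = τ θ₀ := by
    have := congrArg τ t1
    rw [h1] at this
    exact this
  have t4 : τ' (τ θ₀) = θ₀ := by rw [← t3, h1']
  obtain ⟨θ, q1, q2, q3⟩ : ∃ θ : M, τ θ = 1 - θ ∧ τ' θ = 1 - θ ∧ θ - (1 - θ) ≠ 0 := by
    by_cases hT : θ₀ + τ θ₀ = 0
    · have n1 : τ θ₀ = -θ₀ := by
        rw [eq_neg_iff_add_eq_zero, add_comm]
        exact hT
      have n2 : (2 : M) ≠ 0 := by
        intro h
        apply t2
        rw [n1]
        have : θ₀ + θ₀ = 0 := by rw [← two_mul, h, zero_mul]
        exact neg_eq_of_add_eq_zero_left this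
      have n3 : θ₀ ≠ 0 := by
        rintro rfl
        apply t2
        simp
      refine ⟨θ₀ + 1 / 2, ?_, ?_, ?_⟩
      · rw [map_add, map_div₀, map_one, map_ofNat, n1]
        field_simp
        ring
      · rw [map_add, map_div₀, map_one, map_ofNat, t3, n1]
        field_simp
        ring
      · have : θ₀ + 1 / 2 - (1 - (θ₀ + 1 / 2)) = 2 * θ₀ := by
          field_simp
          ring
        rw [this]
        exact mul_ne_zero n2 n3
    · refine ⟨θ₀ / (θ₀ + τ θ₀), ?_, ?_, ?_⟩
      · rw [map_div₀, map_add, h1, add_comm (τ θ₀) θ₀]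
        field_simp
        ring
      · rw [map_div₀, map_add, t3, t4, add_comm (τ θ₀) θ₀]
        field_simp
        ring
      · have : θ₀ / (θ₀ + τ θ₀) - (1 - θ₀ / (θ₀ + τ θ₀)) = (θ₀ - τ θ₀) / (θ₀ + τ θ₀) := by
          field_simp
          ring
        rw [this]
        exact div_ne_zero (sub_ne_zero.2 (Ne.symm t2)) hT
  obtain ⟨δ, hδ⟩ := h5 (θ * θ - θ) (by rw [map_sub, map_mul, q1]; ring)
    (by rw [map_sub, map_mul, q2]; ring)
  set r := τ' β with hr
  have hfr : aeval r f = 0 := by
    have := aeval_algHom_apply (τ' : M →ₐ[F] M) β f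
    rw [hβ, map_zero] at this
    exact this
  have hfr' : aeval (τ r) f = 0 := by
    have := aeval_algHom_apply (τ : M →ₐ[F] M) r f
    rw [hfr, map_zero] at this
    exact this
  set s₁ := (r - τ r) / (θ - (1 - θ)) with hs₁
  have e1 : s₁ * (θ - (1 - θ)) = r - τ r := div_mul_cancel₀ _ q3
  set s₀ := r - s₁ * θ with hs₀
  have f1 : τ s₁ = s₁ := by
    have g1 : τ s₁ * (θ - (1 - θ)) = s₁ * (θ - (1 - θ)) := by
      have g2 := congrArg τ e1
      simp only [map_mul, map_sub, map_one, q1, h1] at g2
      rw [e1]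
      linear_combination (-1 : M) * g2
    exact mul_right_cancel₀ q3 g1
  have f0 : τ s₀ = s₀ := by
    rw [hs₀, map_sub, map_mul, f1, q1]
    linear_combination e1
  obtain ⟨P₀, hP₀⟩ := hpol _ (h2 _ f0)
  obtain ⟨P₁, hP₁⟩ := hpol _ (h2 _ f1)
  have hs1 : s₁ ≠ 0 := by
    intro h
    rw [h, zero_mul] at e1
    exact hc1 (sub_eq_zero.1 e1.symm).symm
  refine quad hD c (δ : D) (aeval c P₀) (aeval c P₁) δ.2 ?_ (aeval_mem_adjoin_singleton F c)
    (aeval_mem_adjoin_singleton F c) ?_ ?_
  · intro e he h
    have g1 : (⟨e, he⟩ : F) * ⟨e, he⟩ = ⟨e, he⟩ + δ := Subtype.ext h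
    set a : M := algebraMap F M ⟨e, he⟩ with ha
    have g2 : a * a = a + (θ * θ - θ) := by
      rw [ha, ← map_mul, g1, map_add, hδ]
    have g3 : τ a = a := τ.commutes _
    have g4 : (a - θ) * (a - (1 - θ)) = 0 := by linear_combination g2
    rcases mul_eq_zero.1 g4 with g5 | g5
    · have g6 : a = θ := sub_eq_zero.1 g5
      rw [g6, q1] at g3
      exact q3 (by rw [g3, sub_self])
    · have g6 : a = 1 - θ := sub_eq_zero.1 g5
      rw [g6, map_sub, map_one, q1] at g3
      apply q3
      linear_combination g3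
  · intro h
    have := key2 _ h
    rw [hP₁] at this
    exact hs1 this
  · set R : Matrix (Fin 2) (Fin 2) F[X] := !![P₀, C δ * P₁; P₁, P₀ + P₁] with hR
    set G := aeval R f with hG
    have k1 : (aeval c : F[X] →ₐ[F] D).mapMatrix R =
        !![aeval c P₀, (δ : D) * aeval c P₁; aeval c P₁, aeval c P₀ + aeval c P₁] := by
      ext i j
      fin_cases i <;> fin_cases j
      · rfl
      · show aeval c (C δ * P₁) = (δ : D) * aeval c P₁
        rw [map_mul, aeval_C]
        rfl
      · rfl
      · show aeval c (P₀ + P₁) = aeval c P₀ + aeval c P₁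
        rw [map_add]
    have k2 : (aeval β : F[X] →ₐ[F] M).mapMatrix R =
        !![s₀, (θ * θ - θ) * s₁; s₁, s₀ + s₁] := by
      ext i j
      fin_cases i <;> fin_cases j
      · exact hP₀
      · show aeval β (C δ * P₁) = (θ * θ - θ) * s₁
        rw [map_mul, aeval_C, hδ, hP₁]
      · exact hP₁
      · show aeval β (P₀ + P₁) = s₀ + s₁
        rw [map_add, hP₀, hP₁]
    have k3 : (aeval β : F[X] →ₐ[F] M).mapMatrix G =
        aeval (!![s₀, (θ * θ - θ) * s₁; s₁, s₀ + s₁] : Matrix (Fin 2) (Fin 2) M) f := by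
      rw [hG, ← k2]
      exact (aeval_algHom_apply ((aeval β : F[X] →ₐ[F] M).mapMatrix (m := Fin 2)) R f).symm
    set N := (aeval β : F[X] →ₐ[F] M).mapMatrix G with hN
    have v1 : Matrix.vecMul ![1, θ] N = 0 := by
      rw [k3, rowv _ _ r ?_, hfr, zero_smul]
      ext j
      fin_cases j
      · simp [Matrix.vecMul, dotProduct, Fin.sum_univ_two]
        rw [hs₀]
        ring
      · simp [Matrix.vecMul, dotProduct, Fin.sum_univ_two]
        rw [hs₀]
        ring
    have v2 : Matrix.vecMul ![1, 1 - θ] N = 0 := by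
      rw [k3, rowv _ _ (τ r) ?_, hfr', zero_smul]
      have g1 : τ r = s₀ + s₁ * (1 - θ) := by
        rw [hs₀]
        linear_combination e1
      ext j
      fin_cases j
      · simp [Matrix.vecMul, dotProduct, Fin.sum_univ_two]
        rw [g1]
        ring
      · simp [Matrix.vecMul, dotProduct, Fin.sum_univ_two]
        rw [g1]
        ring
    have hz : ∀ i j, N i j = 0 := by
      intro i j
      have w1 := congrFun v1 j
      have w2 := congrFun v2 j
      simp [Matrix.vecMul, dotProduct, Fin.sum_univ_two] at w1 w2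
      have w3 : (θ - (1 - θ)) * N 1 j = 0 := by linear_combination w1 - w2
      have w4 := (mul_eq_zero.1 w3).resolve_left q3
      have w5 : N 0 j = 0 := by
        rw [w4, mul_zero, add_zero] at w1
        exact w1
      fin_cases i
      · exact w5
      · exact w4
    rw [← k1]
    refine (aeval_algHom_apply ((aeval c : F[X] →ₐ[F] D).mapMatrix (m := Fin 2)) R f).trans ?_
    rw [← hG]
    ext i j
    have := key (G i j) (hz i j)
    exact this

end

end Pool.Agent.H17.DR
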