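import Pool.Graph.R_pool_sql_team_seeded_3dad9d7b.NH80.DR.Dick

/-!
# Finiteness tools in a ring, not necessarily a division ring (helper17)
-/

set_option autoImplicit false
set_option linter.unusedVariables false

namespace Pool.Agent.H17.DR

universe u v

open Finset Polynomial

section

variable {F : Type v} {A : Type u} [Field F] [Ring A] [Algebra F A]

/-- a finite-dimensional subalgebra extended by an integral element which moves it to the left -/
theorem gen_fg (R : Subalgebra F A) (hR : (Subalgebra.toSubmodule R).FG) (x : A)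
    (hx : IsIntegral F x) (h : ∀ r ∈ R, ∃ s ∈ R, ∃ t ∈ R, x * r = s * x + t) :
    (Subalgebra.toSubmodule (Algebra.adjoin F ((R : Set A) ∪ {x}))).FG := by
  set X := Algebra.adjoin F {x} with hX
  have hxX : x ∈ X := Algebra.self_mem_adjoin_singleton F x
  set V : Submodule F A := Subalgebra.toSubmodule R * Subalgebra.toSubmodule X with hV
  have hVfg : V.FG := hR.mul hx.fg_adjoin_singleton
  have hmul : ∀ r ∈ R, ∀ y ∈ X, r * y ∈ V := fun r hr y hy => Submodule.mul_mem_mul hr hy
  have h1 : ∀ v ∈ V, ∀ r ∈ R, r * v ∈ V := by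
    intro v hv r hr
    refine Submodule.mul_induction_on hv (fun m hm n hn => ?_) (fun y z hy hz => ?_)
    · rw [← mul_assoc]
      exact hmul _ (R.mul_mem hr hm) _ hn
    · rw [mul_add]
      exact V.add_mem hy hz
  have h2 : ∀ v ∈ V, x * v ∈ V := by
    intro v hv
    refine Submodule.mul_induction_on hv (fun m hm n hn => ?_) (fun y z hy hz => ?_)
    · obtain ⟨s, hs, t, ht, e⟩ := h m hm
      rw [← mul_assoc, e, add_mul, mul_assoc]
      exact V.add_mem (hmul s hs _ (X.mul_mem hxX hn)) (hmul t ht _ hn)
    · rw [mul_add]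
      exact V.add_mem hy hz
  set B := Algebra.adjoin F ((R : Set A) ∪ {x}) with hB
  have h3 : ∀ y ∈ B, ∀ v ∈ V, y * v ∈ V := by
    intro y hy
    refine Algebra.adjoin_induction (p := fun y _ => ∀ v ∈ V, y * v ∈ V) ?_ ?_ ?_ ?_ hy
    · rintro y (hy | hy) v hv
      · exact h1 v hv y hy
      · rw [Set.mem_singleton_iff.1 hy]
        exact h2 v hv
    · intro r v hv
      rw [← Algebra.smul_def]
      exact V.smul_mem r hv
    · intro y z _ _ hy hz v hv
      rw [add_mul]
      exact V.add_mem (hy v hv) (hz v hv)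
    · intro y z _ _ hy hz v hv
      rw [mul_assoc]
      exact hy _ (hz v hv)
  have h4 : Subalgebra.toSubmodule B ≤ V := by
    intro y hy
    have h5 : (1 : A) ∈ V := by
      have := hmul 1 R.one_mem 1 X.one_mem
      rwa [mul_one] at this
    have := h3 y hy 1 h5
    rwa [mul_one] at this
  haveI : Module.Finite F V := Module.Finite.iff_fg.2 hVfg
  exact Module.Finite.iff_fg.1 (Submodule.finiteDimensional_of_le h4)

/-- inverses in finite-dimensional subalgebras -/
theorem inv_mem' (S : Subalgebra F A) (hS : (Subalgebra.toSubmodule S).FG) {x y : A}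
    (hx : x ∈ S) (hxy : x * y = 1) (hyx : y * x = 1) : y ∈ S := by
  haveI : Module.Finite F S := Module.Finite.iff_fg.2 hS
  let f : S →ₗ[F] S := LinearMap.mulLeft F (⟨x, hx⟩ : S)
  have hf : Function.Injective f := by
    intro s t hst
    have h1 : x * (s : A) = x * (t : A) := congrArg Subtype.val hst
    refine Subtype.ext ?_
    calc (s : A) = y * (x * s) := by rw [← mul_assoc, hyx, one_mul]
      _ = y * (x * t) := by rw [h1]
      _ = t := by rw [← mul_assoc, hyx, one_mul]
  obtain ⟨s, hs⟩ := (LinearMap.injective_iff_surjective.1 hf) 1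
  have h2 : x * (s : A) = 1 := congrArg Subtype.val hs
  have h3 : y = s := by
    calc y = y * (x * s) := by rw [h2, mul_one]
      _ = s := by rw [← mul_assoc, hyx, one_mul]
  rw [h3]
  exact s.2

/-- conjugation -/
def conj (y y' : A) (h : y * y' = 1) (h' : y' * y = 1) : A →ₐ[F] A where
  toFun x := y * x * y'
  map_one' := by rw [mul_one, h]
  map_mul' x z := by
    calc y * (x * z) * y' = y * x * 1 * z * y' := by rw [mul_one]; simp only [mul_assoc]
      _ = y * x * (y' * y) * z * y' := by rw [h']
      _ = y * x * y' * (y * z * y') := by simp only [mul_assoc]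
  map_zero' := by rw [mul_zero, zero_mul]
  map_add' x z := by rw [mul_add, add_mul]
  commutes' r := by rw [← Algebra.commutes, mul_assoc, h, mul_one]

theorem conj_surj (L : Subalgebra F A) (hL : (Subalgebra.toSubmodule L).FG) (y y' : A)
    (h : y * y' = 1) (h' : y' * y = 1) (hc : ∀ l ∈ L, y * l * y' ∈ L) :
    ∀ l ∈ L, y' * l * y ∈ L := by
  haveI : Module.Finite F L := Module.Finite.iff_fg.2 hL
  let f : L →ₗ[F] L :=
    { toFun := fun l => ⟨y * l * y', hc l l.2⟩
      map_add' := fun s t => Subtype.ext (by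
        show y * ((s : A) + t) * y' = y * s * y' + y * t * y'
        rw [mul_add, add_mul])
      map_smul' := fun r s => Subtype.ext (by
        show y * (r • (s : A)) * y' = r • (y * s * y')
        rw [mul_smul_comm, smul_mul_assoc]) }
  have hinv : ∀ s : A, y' * (y * s * y') * y = s := by
    intro s
    calc y' * (y * s * y') * y = (y' * y) * s * (y' * y) := by simp only [mul_assoc]
      _ = s := by rw [h', one_mul, mul_one]
  have hf : Function.Injective f := by
    intro s t hst
    have h1 : y * (s : A) * y' = y * (t : A) * y' := congrArg Subtype.val hst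
    refine Subtype.ext ?_
    rw [← hinv s, h1, hinv t]
  intro l hl
  obtain ⟨s, hs⟩ := (LinearMap.injective_iff_surjective.1 hf) ⟨l, hl⟩
  have h2 : y * (s : A) * y' = l := congrArg Subtype.val hs
  rw [← h2, hinv]
  exact s.2

/-- the divided difference -/
noncomputable def TG (p : F[X]) (a b y : A) : A :=
  ∑ i ∈ range (p.natDegree + 1), p.coeff i • ∑ j ∈ range i, a ^ j * y * b ^ (i - 1 - j)

/-- its coefficients -/
noncomputable def eg (p : F[X]) (b : A) (j : ℕ) : A :=
  ∑ i ∈ Ico (j + 1) (p.natDegree + 1), p.coeff i • b ^ (i - 1 - j)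

theorem teleg (a b y : A) (i : ℕ) :
    a * (∑ j ∈ range i, a ^ j * y * b ^ (i - 1 - j)) -
      (∑ j ∈ range i, a ^ j * y * b ^ (i - 1 - j)) * b = a ^ i * y - y * b ^ i := by
  have h := Finset.sum_range_sub (fun j => a ^ j * y * b ^ (i - j)) i
  simp only [Nat.sub_self, pow_zero, mul_one, Nat.sub_zero, one_mul] at h
  rw [← h, Finset.mul_sum, Finset.sum_mul, ← Finset.sum_sub_distrib]
  refine Finset.sum_congr rfl fun j hj => ?_
  have hj' := Finset.mem_range.1 hj
  have e1 : i - (j + 1) = i - 1 - j := by omega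
  have e2 : i - j = (i - 1 - j) + 1 := by omega
  rw [e1, e2, pow_succ b, pow_succ' a]
  simp only [mul_assoc]

theorem TG_comm (p : F[X]) (a b y : A) :
    a * TG p a b y - TG p a b y * b = aeval a p * y - y * aeval b p := by
  unfold TG
  rw [Finset.mul_sum, Finset.sum_mul, ← Finset.sum_sub_distrib, aeval_eq_sum_range,
    aeval_eq_sum_range, Finset.sum_mul, Finset.mul_sum, ← Finset.sum_sub_distrib]
  refine Finset.sum_congr rfl fun i _ => ?_
  rw [mul_smul_comm, smul_mul_assoc, ← smul_sub, teleg, smul_sub, smul_mul_assoc, mul_smul_comm]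

theorem TG_eq (p : F[X]) (a b y : A) :
    TG p a b y = ∑ j ∈ range p.natDegree, a ^ j * y * eg p b j := by
  unfold TG eg
  simp only [Finset.smul_sum, Finset.mul_sum]
  rw [Finset.sum_comm' (t' := range p.natDegree)
    (s' := fun j => Ico (j + 1) (p.natDegree + 1))]
  · refine Finset.sum_congr rfl fun j _ => Finset.sum_congr rfl fun i _ => ?_
    rw [mul_smul_comm]
  · intro i j
    simp only [Finset.mem_range, Finset.mem_Ico]
    omega

theorem eg_top (p : F[X]) (hp : p.Monic) (hd : p.natDegree ≠ 0) (b : A) :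
    eg p b (p.natDegree - 1) = 1 := by
  unfold eg
  have h1 : p.natDegree - 1 + 1 = p.natDegree := by omega
  rw [h1, Nat.Ico_succ_singleton, Finset.sum_singleton]
  have h2 : p.natDegree - 1 - (p.natDegree - 1) = 0 := by omega
  rw [h2, pow_zero, hp.coeff_natDegree, one_smul]

end

section

variable {F : Type v} {A : Type u} [Field F] [Ring A] [Algebra F A]

/-- the composite of `F(x)` with the quadratic extension generated by `t` -/
def W (F : Type v) {A : Type u} [Field F] [Ring A] [Algebra F A] (x t : A) : Subalgebra F A :=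
  Algebra.adjoin F ((Algebra.adjoin F {x} : Subalgebra F A) ∪ {t} : Set A)

theorem x_mem_W (x t : A) : x ∈ W F x t :=
  Algebra.subset_adjoin (Or.inl (Algebra.self_mem_adjoin_singleton F x))

theorem ad_mem_W {x t y : A} (hy : y ∈ Algebra.adjoin F {x}) : y ∈ W F x t :=
  Algebra.subset_adjoin (Or.inl hy)

theorem t_mem_W (x t : A) : t ∈ W F x t := Algebra.subset_adjoin (Or.inr rfl)

theorem comm_ad {x t : A} (h : t * x = x * t) {r : A} (hr : r ∈ Algebra.adjoin F {x}) :
    t * r = r * t := by
  refine Algebra.adjoin_induction (p := fun r _ => t * r = r * t) ?_ ?_ ?_ ?_ hr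
  · intro y hy
    rw [Set.mem_singleton_iff.1 hy]
    exact h
  · intro r
    exact (Algebra.commutes r t).symm
  · intro y z _ _ hy hz
    rw [mul_add, add_mul, hy, hz]
  · intro y z _ _ hy hz
    rw [← mul_assoc, hy, mul_assoc, hz, mul_assoc]

theorem W_fg {x t : A} (hx : IsIntegral F x) (ht : IsIntegral F t) (h : t * x = x * t) :
    (Subalgebra.toSubmodule (W F x t)).FG := by
  refine gen_fg _ hx.fg_adjoin_singleton t ht fun r hr => ⟨r, hr, 0, Subalgebra.zero_mem _, ?_⟩
  rw [add_zero, comm_ad h hr]

/-- a conjugation of `W` into itself -/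
theorem W_conj {x t y y' : A} (h : y * y' = 1) (h' : y' * y = 1) (hx : y * x * y' ∈ W F x t)
    (ht : y * t * y' ∈ W F x t) : ∀ l ∈ W F x t, y * l * y' ∈ W F x t := by
  have h1 : Algebra.adjoin F {x} ≤ (W F x t).comap (conj (F := F) y y' h h') := by
    refine Algebra.adjoin_le ?_
    rintro z hz
    rw [Set.mem_singleton_iff.1 hz]
    exact hx
  have h2 : W F x t ≤ (W F x t).comap (conj (F := F) y y' h h') := by
    refine Algebra.adjoin_le ?_
    rintro z (hz | hz)
    · exact h1 hz
    · rw [Set.mem_singleton_iff.1 hz]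
      exact ht
  intro l hl
  exact h2 hl

end

end Pool.Agent.H17.DR
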