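import Pool.Agent.H17.DR.Red

/-!
# A conjugate of degree at most two over another one (helper17)
-/

set_option autoImplicit false
set_option linter.unusedVariables false

namespace Pool.Agent.H17.DR

universe u v w

open Finset Polynomial Pool.Agent.NH80.DR

/-- the involution of a separable quadratic extension -/
theorem inv2 {F : Type v} {M : Type w} [Field F] [Field M] [Algebra F M]
    [FiniteDimensional F M] [Algebra.IsSeparable F M] (L : IntermediateField F M)
    (h : Module.finrank L M = 2) : ∃ τ : M ≃ₐ[F] M, (∀ x, τ (τ x) = x) ∧ (∀ x ∈ L, τ x = x) ∧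
      (∀ x, τ x = x → x ∈ L) ∧ ∃ x, τ x ≠ x := by
  have hsep : Algebra.IsSeparable L M := Algebra.isSeparable_tower_top_of_isSeparable F L M
  have hquad : Algebra.IsQuadraticExtension L M := { finrank_eq_two' := h }
  have hgal : IsGalois L M := inferInstance
  have hcard : Nat.card (M ≃ₐ[L] M) = 2 := by
    rw [IsGalois.card_aut_eq_finrank, h]
  obtain ⟨τ₀, hτ₀, huniq⟩ := (Nat.card_eq_two_iff' (1 : M ≃ₐ[L] M)).1 hcard
  have hsq : τ₀ * τ₀ = 1 := by
    by_contra hcon
    have h1 := huniq _ hcon
    apply hτ₀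
    exact mul_eq_left.1 h1
  refine ⟨τ₀.restrictScalars F, ?_, ?_, ?_, ?_⟩
  · intro x
    exact congrArg (fun g : M ≃ₐ[L] M => g x) hsq
  · intro x hx
    exact τ₀.commutes ⟨x, hx⟩
  · intro x hx
    have h1 : x ∈ (⊥ : IntermediateField L M) := by
      rw [IsGalois.mem_bot_iff_fixed]
      intro g
      by_cases hg : g = 1
      · rw [hg]
        rfl
      · rw [huniq g hg]
        exact hx
    rw [IntermediateField.mem_bot] at h1
    obtain ⟨y, hy⟩ := h1
    rw [← hy]
    exact y.2
  · by_contra hcon
    push Not at hcon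
    apply hτ₀
    ext x
    exact hcon x

section

variable {D : Type u} [DivisionRing D]

theorem front (hD : AC D) (c : D) {Ω : Type w} [Field Ω] [Algebra (Subring.center D) Ω]
    (β γ : Ω) (hβ : aeval β (minpoly (Subring.center D) c) = 0)
    (hγ : aeval γ (minpoly (Subring.center D) c) = 0) (hne : γ ≠ β)
    (T N : Ω) (hT : T ∈ Algebra.adjoin (Subring.center D) {β})
    (hN : N ∈ Algebra.adjoin (Subring.center D) {β}) (hq : γ * γ = T * γ + N) : PF D := by
  set F := Subring.center D with hF
  set f := minpoly F c with hf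
  have hfirr : Irreducible f := minpoly.irreducible (hD c)
  have hfm : f.Monic := minpoly.monic (hD c)
  have hfc : aeval c f = 0 := minpoly.aeval F c
  have hfβ : f = minpoly F β := minpoly.eq_of_irreducible_of_monic hfirr hβ hfm
  have hfγ : f = minpoly F γ := minpoly.eq_of_irreducible_of_monic hfirr hγ hfm
  have key : ∀ P : F[X], aeval β P = 0 → aeval c P = 0 := by
    intro P hP
    have h := minpoly.dvd F β hP
    rw [← hfβ] at h
    obtain ⟨Q, hQ⟩ := h
    rw [hQ, map_mul, hfc, zero_mul]
  have key2 : ∀ P : F[X], aeval c P = 0 → aeval β P = 0 := by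
    intro P hP
    obtain ⟨Q, hQ⟩ := minpoly.dvd F c hP
    rw [hQ, map_mul, hβ, zero_mul]
  by_cases hγL : γ ∈ Algebra.adjoin F {β}
  · rw [Algebra.adjoin_singleton_eq_range_aeval] at hγL
    obtain ⟨P, hP⟩ := hγL
    have hP' : aeval β P = γ := hP
    refine Laut hD c (aeval c P) ?_ (aeval_mem_adjoin_singleton F c) ?_
    · have e1 : aeval β (f.comp P) = 0 := by
        rw [aeval_comp, hP', hγ]
      have e2 := key _ e1
      rwa [aeval_comp] at e2
    · intro h
      apply hne
      have e1 : aeval c (P - X) = 0 := by rw [map_sub, aeval_X, h, sub_self]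
      have e2 := key2 _ e1
      rw [map_sub, aeval_X, hP'] at e2
      exact sub_eq_zero.1 e2
  by_cases hsep : f.Separable
  swap
  · rw [separable_iff_derivative_ne_zero hfirr, not_not] at hsep
    exact Linsep hD c hsep
  have hβi : IsIntegral F β := ⟨f, hfm, hβ⟩
  have hγi : IsIntegral F γ := ⟨f, hfm, hγ⟩
  set M := IntermediateField.adjoin F ({β, γ} : Set Ω) with hM
  have hβM : β ∈ M := IntermediateField.subset_adjoin F _ (by simp)
  have hγM : γ ∈ M := IntermediateField.subset_adjoin F _ (by simp)
  set β₀ : M := ⟨β, hβM⟩ with hβ₀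
  set γ₀ : M := ⟨γ, hγM⟩ with hγ₀
  have hfin : FiniteDimensional F M := by
    refine IntermediateField.finiteDimensional_adjoin ?_
    rintro x (rfl | hx)
    · exact hβi
    · rw [Set.mem_singleton_iff.1 hx]
      exact hγi
  have hsepM : Algebra.IsSeparable F M := by
    refine (IntermediateField.isSeparable_adjoin_iff_isSeparable F Ω).2 ?_
    rintro x (rfl | hx)
    · show (minpoly F _).Separable
      rw [← hfβ]
      exact hsep
    · rw [Set.mem_singleton_iff.1 hx]
      show (minpoly F _).Separable
      rw [← hfγ]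
      exact hsep
  have hval : ∀ (y : M) (P : F[X]), ((aeval y P : M) : Ω) = aeval (y : Ω) P := fun y P =>
    (aeval_algHom_apply M.val y P).symm
  have hβ₀f : aeval β₀ f = 0 := Subtype.ext ((hval _ _).trans hβ)
  have hγ₀f : aeval γ₀ f = 0 := Subtype.ext ((hval _ _).trans hγ)
  have hfβ₀ : f = minpoly F β₀ := minpoly.eq_of_irreducible_of_monic hfirr hβ₀f hfm
  have hfγ₀ : f = minpoly F γ₀ := minpoly.eq_of_irreducible_of_monic hfirr hγ₀f hfm
  have htop : IntermediateField.adjoin F ({β₀, γ₀} : Set M) = ⊤ := by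
    apply IntermediateField.lift_injective M
    rw [IntermediateField.lift_adjoin, IntermediateField.lift_top, Set.image_pair]
  set L := IntermediateField.adjoin F ({β₀} : Set M) with hL
  set L' := IntermediateField.adjoin F ({γ₀} : Set M) with hL'
  have hLpol : ∀ x ∈ L, x ∈ Algebra.adjoin F {β₀} := by
    intro x hx
    have h1 : x ∈ L.toSubalgebra := hx
    rwa [hL, IntermediateField.adjoin_simple_toSubalgebra_of_isAlgebraic
      (Algebra.IsAlgebraic.isAlgebraic β₀)] at h1
  have hγnL : γ₀ ∉ L := by
    intro h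
    have h1 := hLpol _ h
    rw [Algebra.adjoin_singleton_eq_range_aeval] at h1
    obtain ⟨P, hP⟩ := h1
    apply hγL
    have h2 : aeval β P = γ := by
      have := congrArg Subtype.val hP
      rw [← hval β₀ P]
      exact this
    rw [← h2]
    exact aeval_mem_adjoin_singleton F β
  rw [Algebra.adjoin_singleton_eq_range_aeval] at hT hN
  obtain ⟨PT, hPT⟩ := hT
  obtain ⟨PN, hPN⟩ := hN
  have hPT' : aeval β PT = T := hPT
  have hPN' : aeval β PN = N := hPN
  have hq₀ : γ₀ * γ₀ = aeval β₀ PT * γ₀ + aeval β₀ PN := by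
    refine Subtype.ext ?_
    show γ * γ = ((aeval β₀ PT : M) : Ω) * γ + ((aeval β₀ PN : M) : Ω)
    rw [hval, hval]
    show γ * γ = aeval β PT * γ + aeval β PN
    rw [hPT', hPN', hq]
  have hβL : β₀ ∈ L := IntermediateField.subset_adjoin F _ (by simp)
  have hmemL : ∀ P : F[X], aeval β₀ P ∈ L := by
    intro P
    exact (aeval_mem_adjoin_singleton F β₀ |> fun h =>
      (IntermediateField.algebra_adjoin_le_adjoin F {β₀}) h)
  have hdeg : (minpoly L γ₀).natDegree ≤ 2 := by
    set q : L[X] := X ^ 2 + (-(C ⟨_, hmemL PT⟩ * X) - C ⟨_, hmemL PN⟩) with hqdef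
    have hqm : q.Monic := by
      refine monic_X_pow_add ?_
      refine (degree_sub_le _ _).trans_lt ?_
      rw [degree_neg]
      refine max_lt ((degree_C_mul_X_le _).trans_lt (by norm_num))
        (degree_C_le.trans_lt (by norm_num))
    have hqd : q.natDegree = 2 := by
      rw [hqdef]
      compute_degree!
    have hqz : aeval γ₀ q = 0 := by
      rw [hqdef, map_add, map_sub, map_neg, map_mul, map_pow, aeval_X, aeval_C, aeval_C]
      show γ₀ ^ 2 + (-(aeval β₀ PT * γ₀) - aeval β₀ PN) = 0
      rw [pow_two, hq₀]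
      ring
    have := natDegree_le_of_dvd (minpoly.dvd L γ₀ hqz) hqm.ne_zero
    rwa [hqd] at this
  have hγint : IsIntegral L γ₀ := IsIntegral.of_finite L γ₀
  have hLγ : IntermediateField.adjoin L ({γ₀} : Set M) = ⊤ := by
    have h1 := IntermediateField.adjoin_simple_adjoin_simple F β₀ γ₀
    rw [htop] at h1
    apply IntermediateField.restrictScalars_injective F
    rw [h1, IntermediateField.restrictScalars_top]
  have hrank : Module.finrank L M = (minpoly L γ₀).natDegree := by
    rw [← IntermediateField.adjoin.finrank hγint, hLγ, IntermediateField.finrank_top']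
  have hrank2 : Module.finrank L M = 2 := by
    have h1 : 0 < (minpoly L γ₀).natDegree := minpoly.natDegree_pos hγint
    have h2 : (minpoly L γ₀).natDegree ≠ 1 := by
      intro h
      rw [minpoly.natDegree_eq_one_iff] at h
      obtain ⟨y, hy⟩ := h
      apply hγnL
      rw [← hy]
      exact y.2
    omega
  have hr1 : Module.finrank F L = f.natDegree := by
    rw [hL, IntermediateField.adjoin.finrank (IsIntegral.of_finite F β₀), ← hfβ₀]
  have hr2 : Module.finrank F L' = f.natDegree := by
    rw [hL', IntermediateField.adjoin.finrank (IsIntegral.of_finite F γ₀), ← hfγ₀]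
  have hrank2' : Module.finrank L' M = 2 := by
    have h1 := Module.finrank_mul_finrank F L M
    have h2 := Module.finrank_mul_finrank F L' M
    rw [hr1, hrank2] at h1
    rw [hr2, ← h1] at h2
    exact Nat.eq_of_mul_eq_mul_left (minpoly.natDegree_pos (hD c)) h2
  obtain ⟨τ, t1, t2, t3, t4⟩ := inv2 L hrank2
  obtain ⟨τ', t1', t2', t3', t4'⟩ := inv2 L' hrank2'
  refine two hD c β₀ hβ₀f τ τ' t1 t1' (fun x hx => hLpol x (t3 x hx)) (t2 _ hβL) ?_
  intro h
  obtain ⟨x, hx⟩ := t4'
  apply hx
  have h1 : IntermediateField.adjoin F ({β₀, γ₀} : Set M) ≤ fixed2 τ' τ' := by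
    rw [IntermediateField.adjoin_le_iff]
    rintro y (rfl | hy)
    · exact ⟨h, h⟩
    · rw [Set.mem_singleton_iff.1 hy]
      have h2 : τ' γ₀ = γ₀ := t2' _ (IntermediateField.subset_adjoin F _ (by simp))
      exact ⟨h2, h2⟩
  rw [htop] at h1
  exact (h1 (IntermediateField.mem_top (x := x))).1

end

end Pool.Agent.H17.DR
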