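import Pool.Agent.H17.DR.Core

/-!
# A conjugate in a constant quadratic extension (helper17)
-/

set_option autoImplicit false
set_option linter.unusedVariables false

namespace Pool.Agent.H17.DR

universe u v

open Finset Polynomial Pool.Agent.NH80.DR

section

variable {D : Type u} [DivisionRing D]

/-- the scalar matrices -/
def io (D : Type u) [DivisionRing D] : D →ₐ[Subring.center D] Matrix (Fin 2) (Fin 2) D :=
  { Matrix.scalar (Fin 2) with
    commutes' := by
      intro r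
      ext i j
      simp [Matrix.algebraMap_matrix_apply, Matrix.diagonal_apply] }

theorem io_mul (x : D) (M : Matrix (Fin 2) (Fin 2) D) (i j : Fin 2) :
    (io D x * M) i j = x * M i j := by
  show ((Matrix.diagonal (fun _ => x) : Matrix (Fin 2) (Fin 2) D) * M) i j = _
  rw [Matrix.diagonal_mul]

theorem mul_io (x : D) (M : Matrix (Fin 2) (Fin 2) D) (i j : Fin 2) :
    (M * io D x) i j = M i j * x := by
  show (M * (Matrix.diagonal (fun _ => x) : Matrix (Fin 2) (Fin 2) D)) i j = _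
  rw [Matrix.mul_diagonal]

/-- there is an intertwining row -/
theorem row (hD : AC D) (c : D) (R : Matrix (Fin 2) (Fin 2) D)
    (hR : aeval R (minpoly (Subring.center D) c) = 0) :
    ∃ Z : Matrix (Fin 2) (Fin 2) D, Z 0 0 ≠ 0 ∧ io D c * Z = Z * R := by
  set p := minpoly (Subring.center D) c with hp
  have hd : p.natDegree ≠ 0 := (minpoly.natDegree_pos (hD c)).ne'
  have hcomm : ∀ y : D, io D c * TG p (io D c) R (io D y) = TG p (io D c) R (io D y) * R := by
    intro y
    have h1 := TG_comm p (io D c) R (io D y)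
    rw [aeval_algHom_apply, minpoly.aeval, map_zero, zero_mul, hR, mul_zero, sub_zero] at h1
    exact sub_eq_zero.1 h1
  by_contra hcon
  push Not at hcon
  have hz : ∀ y : D, (TG p (io D c) R (io D y)) 0 0 = 0 := by
    intro y
    by_contra h
    exact hcon _ h (hcomm y)
  have h1 := artin (fun i : Fin p.natDegree => c ^ (i : ℕ)) (linearIndependent_pow c) p.natDegree
    (fun i => (eg p R i) 0 0) ((Finset.card_le_univ _).trans (by simp)) (fun y => by
      have h2 := hz y
      rw [TG_eq, Finset.sum_range, Matrix.sum_apply] at h2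
      rw [← h2]
      refine Finset.sum_congr rfl fun i _ => ?_
      rw [← map_pow, ← map_mul, io_mul]) ⟨p.natDegree - 1, by omega⟩
  rw [eg_top p (minpoly.monic (hD c)) hd, Matrix.one_apply_eq] at h1
  exact one_ne_zero h1

theorem quad (hD : AC D) (c δ s₀ s₁ : D) (hδ : δ ∈ Subring.center D)
    (hirr : ∀ e ∈ Subring.center D, e * e ≠ e + δ)
    (hs₀ : s₀ ∈ Algebra.adjoin (Subring.center D) {c})
    (hs₁ : s₁ ∈ Algebra.adjoin (Subring.center D) {c}) (hs : s₁ ≠ 0)
    (hroot : aeval (!![s₀, δ * s₁; s₁, s₀ + s₁] : Matrix (Fin 2) (Fin 2) D)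
      (minpoly (Subring.center D) c) = 0) : PF D := by
  obtain ⟨Z, hZ, hcom⟩ := row hD c _ hroot
  have e1 : c * Z 0 0 = Z 0 0 * s₀ + Z 0 1 * s₁ := by
    have h1 := congrFun (congrFun hcom 0) 0
    rw [io_mul] at h1
    rw [h1]
    simp [Matrix.mul_apply, Fin.sum_univ_two]
  have e2 : c * Z 0 1 = Z 0 0 * (δ * s₁) + Z 0 1 * (s₀ + s₁) := by
    have h1 := congrFun (congrFun hcom 0) 1
    rw [io_mul] at h1
    rw [h1]
    simp [Matrix.mul_apply, Fin.sum_univ_two]
  set x₀ := Z 0 0 with hx₀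
  set w := x₀⁻¹ * Z 0 1 - 1 with hw
  have hx₁ : Z 0 1 = x₀ * (w + 1) := by
    rw [hw, sub_add_cancel, ← mul_assoc, mul_inv_cancel₀ hZ, one_mul]
  rw [hx₁] at e1 e2
  have E1 : c * x₀ = x₀ * (s₀ + (w + 1) * s₁) := by
    rw [e1]
    noncomm_ring
  have E2 : c * (x₀ * (w + 1)) = x₀ * (δ * s₁ + (w + 1) * (s₀ + s₁)) := by
    rw [e2]
    noncomm_ring
  by_cases hN : w * w + w - δ = 0
  · have he : (-w) * (-w) = (-w) + δ := by
      have h1 : (-w) * (-w) = (w * w + w - δ) + (-w + δ) := by noncomm_ring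
      rw [h1, hN, zero_add]
    by_cases hwc : -w ∈ Subring.center D
    · exact absurd he (hirr _ hwc)
    · obtain ⟨g, hg⟩ := notc hwc
      exact L2 hD (b := -w) (y := g) (α := 1) (β := δ) (Subring.one_mem _) hδ hg
        (by rw [one_mul, he])
  have h4 : (1 : Subring.center D) + 4 * ⟨δ, hδ⟩ ≠ 0 := by
    intro h
    have h1 : (1 : D) + 4 * δ = 0 := congrArg Subtype.val h
    refine hirr (-(δ + δ)) (Subring.neg_mem _ (Subring.add_mem _ hδ hδ)) ?_
    have h2 : -(δ + δ) * -(δ + δ) = (1 + 4 * δ) * δ + (-(δ + δ) + δ) := by noncomm_ring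
    rw [h2, h1, zero_mul, zero_add]
  have hcw : c * w ≠ w * c := by
    intro h
    have k0 : w * s₀ = s₀ * w := comm_ad h.symm hs₀
    have k1 : w * s₁ = s₁ * w := comm_ad h.symm hs₁
    have h1 : (s₀ + (w + 1) * s₁) * (w + 1) = δ * s₁ + (w + 1) * (s₀ + s₁) := by
      refine mul_left_cancel₀ hZ ?_
      rw [← E2, ← mul_assoc, ← E1, mul_assoc]
    have h2 : (w * w + w - δ) * s₁ = ((s₀ + (w + 1) * s₁) * (w + 1) -
        (δ * s₁ + (w + 1) * (s₀ + s₁))) - (s₀ * w - w * s₀) - (w + 1) * (s₁ * w - w * s₁) := by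
      noncomm_ring
    rw [h1, sub_eq_zero.2 k0.symm, sub_eq_zero.2 k1.symm, sub_self, mul_zero, sub_zero,
      sub_zero] at h2
    rcases mul_eq_zero.1 h2 with h3 | h3
    · exact hN h3
    · exact hs h3
  refine core (io D) (!![0, δ; 1, 1] : Matrix (Fin 2) (Fin 2) D) ?_ ⟨δ, hδ⟩ ?_ h4 c w x₀ s₀ s₁
    (hD c) (hD w) hZ hs₀ hs₁ hN E1 E2 hcw
  · intro x
    ext i j
    rw [io_mul, mul_io]
    fin_cases i <;> fin_cases j <;> simp
    exact (ccomm hδ x).symm
  · ext i j
    fin_cases i <;> fin_cases j <;>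
      simp [Matrix.mul_apply, Fin.sum_univ_two, Matrix.algebraMap_matrix_apply] <;>
      first | rfl | (rw [add_comm]; rfl)

end

end Pool.Agent.H17.DR
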