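import Pool.Agent.H17.DR.Dih

/-!
# Reduction to the fixed field of two involutions (helper17)
-/

set_option autoImplicit false
set_option linter.unusedVariables false

namespace Pool.Agent.H17.DR

universe u v w

open Finset Polynomial Pool.Agent.NH80.DR

/-- the elements fixed by two automorphisms -/
def fixed2 {F : Type v} {M : Type w} [Field F] [Field M] [Algebra F M] (τ τ' : M ≃ₐ[F] M) :
    IntermediateField F M where
  carrier := {y | τ y = y ∧ τ' y = y}
  mul_mem' := by
    rintro x y ⟨hx, hx'⟩ ⟨hy, hy'⟩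
    exact ⟨by rw [map_mul, hx, hy], by rw [map_mul, hx', hy']⟩
  add_mem' := by
    rintro x y ⟨hx, hx'⟩ ⟨hy, hy'⟩
    exact ⟨by rw [map_add, hx, hy], by rw [map_add, hx', hy']⟩
  algebraMap_mem' r := ⟨τ.commutes r, τ'.commutes r⟩
  inv_mem' := by
    rintro x ⟨hx, hx'⟩
    exact ⟨by rw [map_inv₀, hx], by rw [map_inv₀, hx']⟩

section

variable {D : Type u} [DivisionRing D]

/-- polynomials in `a` are central in the centralizer of `a` -/
noncomputable def qa (a : D) : (Subring.center D)[X] →+* Subring.center (cz a) where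
  toFun P := ⟨⟨aeval a P, comm_ad rfl (aeval_mem_adjoin_singleton _ a)⟩,
    Subring.mem_center_iff.2 fun g => Subtype.ext
      (comm_ad (show (g : D) * a = a * g from (show a * (g : D) = g * a from g.2).symm)
        (aeval_mem_adjoin_singleton _ a))⟩
  map_one' := Subtype.ext (Subtype.ext (map_one (aeval a)))
  map_mul' P Q := Subtype.ext (Subtype.ext (map_mul (aeval a) P Q))
  map_zero' := Subtype.ext (Subtype.ext (map_zero (aeval a)))
  map_add' P Q := Subtype.ext (Subtype.ext (map_add (aeval a) P Q))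

theorem qa_val (a : D) (P : (Subring.center D)[X]) :
    ((qa a P : cz a) : D) = aeval a P := rfl

theorem qa_surj (hD : AC D) (a : D) : Function.Surjective (qa a) := by
  intro z
  have h1 := double hD a ((z : cz a) : D) (fun g hg => by
    have := Subring.mem_center_iff.1 z.2 ⟨g, hg⟩
    exact (congrArg Subtype.val this).symm)
  rw [Algebra.adjoin_singleton_eq_range_aeval] at h1
  obtain ⟨P, hP⟩ := h1
  exact ⟨P, Subtype.ext (Subtype.ext hP)⟩

theorem two (hD : AC D) (c : D) {M : Type w} [Field M] [Algebra (Subring.center D) M]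
    [FiniteDimensional (Subring.center D) M] [Algebra.IsSeparable (Subring.center D) M] (β : M)
    (hβ : aeval β (minpoly (Subring.center D) c) = 0)
    (τ τ' : M ≃ₐ[Subring.center D] M) (h1 : ∀ x, τ (τ x) = x) (h1' : ∀ x, τ' (τ' x) = x)
    (h2 : ∀ x, τ x = x → x ∈ Algebra.adjoin (Subring.center D) {β}) (h3 : τ β = β)
    (h4 : τ' β ≠ β) : PF D := by
  set F := Subring.center D with hF
  set f := minpoly F c with hf
  have key2 : ∀ P : F[X], aeval c P = 0 → aeval β P = 0 := by
    intro P hP
    obtain ⟨Q, hQ⟩ := minpoly.dvd F c hP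
    rw [hQ, map_mul, hβ, zero_mul]
  have hpol : ∀ x ∈ Algebra.adjoin F {β}, ∃ P : F[X], aeval β P = x := by
    intro x hx
    rw [Algebra.adjoin_singleton_eq_range_aeval] at hx
    exact hx
  obtain ⟨x, hx⟩ := Field.exists_primitive_element F (fixed2 τ τ')
  have hx1 : τ (x : M) = x := x.2.1
  have hx2 : τ' (x : M) = x := x.2.2
  have hgen : ∀ y : M, τ y = y → τ' y = y → ∃ P : F[X], aeval (x : M) P = y := by
    intro y hy hy'
    have m1 : (⟨y, hy, hy'⟩ : fixed2 τ τ') ∈ (IntermediateField.adjoin F {x}).toSubalgebra := by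
      rw [hx]
      exact Algebra.mem_top
    rw [IntermediateField.adjoin_simple_toSubalgebra_of_isAlgebraic
      (Algebra.IsAlgebraic.isAlgebraic x), Algebra.adjoin_singleton_eq_range_aeval] at m1
    obtain ⟨P, hP⟩ := m1
    refine ⟨P, ?_⟩
    have m2 := aeval_algHom_apply (fixed2 τ τ').val x P
    have m3 : aeval x P = (⟨y, hy, hy'⟩ : fixed2 τ τ') := hP
    rw [m3] at m2
    exact m2
  obtain ⟨P₀, hP₀⟩ := hpol _ (h2 _ hx1)
  set a : D := aeval c P₀ with ha
  have hca : a * c = c * a := by
    have e1 : aeval c (P₀ * X) = aeval c (X * P₀) := by rw [mul_comm]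
    rw [map_mul, map_mul, aeval_X] at e1
    exact e1
  have hcE : c ∈ cz a := hca
  have hE : AC (cz a) := ac_of_sub (cz a) (cz_center a) hD
  have hker : RingHom.ker (qa a) ≤ RingHom.ker ((aeval (x : M) : F[X] →ₐ[F] M) : F[X] →+* M) := by
    intro P hP
    rw [RingHom.mem_ker] at hP ⊢
    have e1 : aeval a P = 0 := by
      rw [← qa_val, hP]
      rfl
    have e2 : aeval c (P.comp P₀) = 0 := by rw [aeval_comp, ← ha, e1]
    have e3 := key2 _ e2
    rw [aeval_comp, hP₀] at e3
    exact e3
  set i₀ : Subring.center (cz a) →+* M :=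
    (qa a).liftOfSurjective (qa_surj hD a)
      ⟨((aeval (x : M) : F[X] →ₐ[F] M) : F[X] →+* M), hker⟩ with hi₀
  have hi : ∀ P : F[X], i₀ (qa a P) = aeval (x : M) P := fun P =>
    RingHom.liftOfSurjective_comp_apply (qa a) (qa_surj hD a) _ P
  refine pf_of_sub (cz a) ?_
  letI algM : Algebra (Subring.center (cz a)) M := i₀.toAlgebra
  letI algF : Algebra F (Subring.center (cz a)) := ((qa a).comp C).toAlgebra
  have htower : IsScalarTower F (Subring.center (cz a)) M := by
    refine IsScalarTower.of_algebraMap_eq fun e => ?_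
    show algebraMap F M e = i₀ (qa a (C e))
    rw [hi, aeval_C]
  have hfin : FiniteDimensional (Subring.center (cz a)) M :=
    Module.Finite.of_restrictScalars_finite F (Subring.center (cz a)) M
  have hcom : ∀ (σ : M ≃ₐ[F] M), σ x = x → ∀ z : Subring.center (cz a),
      σ (algebraMap (Subring.center (cz a)) M z) = algebraMap (Subring.center (cz a)) M z := by
    intro σ hσ z
    obtain ⟨P, rfl⟩ := qa_surj hD a z
    show σ (i₀ (qa a P)) = i₀ (qa a P)
    rw [hi]
    have e1 := aeval_algHom_apply (σ : M →ₐ[F] M) (x : M) P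
    have e2 : (σ : M →ₐ[F] M) (x : M) = x := hσ
    rw [e2] at e1
    exact e1.symm
  refine base hE (⟨c, hcE⟩ : cz a) β ?_
    (AlgEquiv.ofRingEquiv (f := (τ : M ≃+* M)) (hcom τ hx1))
    (AlgEquiv.ofRingEquiv (f := (τ' : M ≃+* M)) (hcom τ' hx2)) h1 h1' ?_ h3 h4 ?_
  · obtain ⟨g, hg⟩ := Polynomial.map_surjective (qa a) (qa_surj hD a)
      (minpoly (Subring.center (cz a)) (⟨c, hcE⟩ : cz a))
    set G : F[X] := g.eval₂ (compRingHom P₀) X with hG
    have e1 : aeval c G = g.eval₂ ((aeval a : F[X] →ₐ[F] D) : F[X] →+* D) c := by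
      have := hom_eval₂ g (compRingHom P₀) ((aeval c : F[X] →ₐ[F] D) : F[X] →+* D) X
      have e2 : ((aeval c : F[X] →ₐ[F] D) : F[X] →+* D).comp (compRingHom P₀) =
          ((aeval a : F[X] →ₐ[F] D) : F[X] →+* D) := by
        ext1
        · ext1 z
          simp
        · simp [ha]
      rw [e2] at this
      rw [hG]
      refine Eq.trans this ?_
      congr 1
      exact aeval_X c
    have e1' : aeval β G = g.eval₂ ((aeval (x : M) : F[X] →ₐ[F] M) : F[X] →+* M) β := by
      have := hom_eval₂ g (compRingHom P₀) ((aeval β : F[X] →ₐ[F] M) : F[X] →+* M) X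
      have e2 : ((aeval β : F[X] →ₐ[F] M) : F[X] →+* M).comp (compRingHom P₀) =
          ((aeval (x : M) : F[X] →ₐ[F] M) : F[X] →+* M) := by
        ext1
        · ext1 z
          simp
        · simp [hP₀]
      rw [e2] at this
      rw [hG]
      refine Eq.trans this ?_
      congr 1
      exact aeval_X β
    have e3 : g.eval₂ ((aeval a : F[X] →ₐ[F] D) : F[X] →+* D) c = 0 := by
      have h := minpoly.aeval (Subring.center (cz a)) (⟨c, hcE⟩ : cz a)
      rw [← hg, aeval_def, eval₂_map] at h
      have h' := congrArg (cz a).subtype h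
      rw [hom_eval₂, map_zero] at h'
      exact h'
    have e4 := key2 G (e1.trans e3)
    rw [e1'] at e4
    rw [← hg, aeval_def, eval₂_map]
    have e5 : (algebraMap (Subring.center (cz a)) M).comp (qa a) =
        ((aeval (x : M) : F[X] →ₐ[F] M) : F[X] →+* M) := RingHom.ext hi
    rw [e5]
    exact e4
  · intro y hy
    obtain ⟨Q, hQ⟩ := hpol y (h2 y hy)
    have e1 : aeval β (Q.map (algebraMap F (Subring.center (cz a)))) = y := by
      rw [aeval_map_algebraMap, hQ]
    rw [← e1]
    exact aeval_mem_adjoin_singleton _ β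
  · intro y hy hy'
    obtain ⟨P, hP⟩ := hgen y hy hy'
    exact ⟨qa a P, (hi P).trans hP⟩

end

end Pool.Agent.H17.DR
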